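import Pool.Agent.H79.LK.Npl
import Pool.Agent.H13.K2S.Npc
import Pool.Agent.H13.EG.Skel
import Pool.Agent.H32.LK.ENDL
import Pool.Agent.H50.LK.LK1
import Pool.Agent.H64.KS6.WfeA

/-!
# Labels: the frames cannot be conserved on macroscopic windows of small length exponent
-/

set_option autoImplicit false

namespace Pool.LK

open Finset Real
open Pool.Agent.H49.Ent Pool.Agent.H32.Dense Pool.STK Pool.KA Pool.KSAT Pool.KA.TRC Pool.K2S

variable {m J : ℕ}

/-- Fans in balls have no entropy. -/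
theorem ball_ent {F : Fam m J} {q : ℕ} {p : F.Ω → ℝ} (hp : IsLaw p)
    {v : (Fin m → ℤ) × (ℕ × F.ζ) → Fin m → ℝ}
    (hv : ∀ ω, 0 < p ω → ∀ j, |F.d ω j - v (F.X J ω, F.W ω) j| ≤ 1 / 2 ^ q) :
    CH p (F.D q) (fun ω => (F.X J ω, F.W ω)) ≤ cc m := by
  have e1 := Pool.KA.TRC.CH_le_round hp (F.D q) (fun _ => (0 : Fin m → ℤ))
    (fun ω => (F.X J ω, F.W ω)) (fun ω ω' hω hω' hw _ k => by
      have b1 := hv ω hω k
      have b2 := hv ω' hω' k
      have hw' : (F.X J ω, F.W ω) = (F.X J ω', F.W ω') := hw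
      rw [hw'] at b1
      have hpq : (0 : ℝ) < 2 ^ q := by positivity
      have b3 : |(2 : ℝ) ^ q * F.d ω k - 2 ^ q * F.d ω' k| ≤ 2 := by
        rw [← mul_sub, abs_mul, abs_of_pos hpq]
        have b4 : |F.d ω k - F.d ω' k| ≤ 1 / 2 ^ q + 1 / 2 ^ q := by
          rw [abs_le] at b1 b2 ⊢
          constructor <;> linarith [b1.1, b1.2, b2.1, b2.2]
        calc (2 : ℝ) ^ q * |F.d ω k - F.d ω' k| ≤ 2 ^ q * (1 / 2 ^ q + 1 / 2 ^ q) :=
              mul_le_mul_of_nonneg_left b4 hpq.le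
          _ = 2 := by field_simp; norm_num
      have f1 := Int.floor_le ((2 : ℝ) ^ q * F.d ω k)
      have f2 := Int.lt_floor_add_one ((2 : ℝ) ^ q * F.d ω k)
      have f3 := Int.floor_le ((2 : ℝ) ^ q * F.d ω' k)
      have f4 := Int.lt_floor_add_one ((2 : ℝ) ^ q * F.d ω' k)
      rw [abs_le] at b3
      change |((⌊(2 : ℝ) ^ q * F.d ω k⌋ - ⌊(2 : ℝ) ^ q * F.d ω' k⌋ : ℤ) : ℝ)| ≤ 49
      rw [abs_le]
      push_cast
      constructor <;> linarith [b3.1, b3.2])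
  have e2 : CH p (fun _ => (0 : Fin m → ℤ)) (fun ω => (F.X J ω, F.W ω)) = 0 :=
    CH_eq_zero hp.nonneg fun _ _ _ _ _ => rfl
  linarith

/-- In the class the fans are spread at every scale. -/
theorem not_ballG {S : Pool.PB.FCl m} {a R : ℝ} (ha : 1 ≤ a) (hR : 0 < R) (hG : GW S a R)
    {x : ℝ} (hx : 0 < x) :
    ∃ τ > 0, ∃ J₁ : ℕ, ∀ J ≥ J₁, ∀ (F : Fam m J) (A : F.Ω → Prop), S.St τ F A →
      ∀ q : ℕ, q ≤ J → x * J ≤ q → ¬ Ball (1 / 2 ^ q) (Fam.pt F) F.d A := by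
  have ha0 : 0 < a := by linarith
  have hcc : 0 ≤ cc m := mul_nonneg (by positivity) (Real.log_nonneg (by norm_num))
  obtain ⟨τ, hτ, J₁, h1⟩ := hG.tube (R * x / 2) (by positivity)
  obtain ⟨J₂, hJ₂⟩ := exists_nat_gt (2 * (a * cc m) / (R * x))
  refine ⟨τ, hτ, max J₁ (max J₂ 1), fun J hJ F A hS q hq hxq ⟨v, hv⟩ => ?_⟩
  have hJ1 : J₁ ≤ J := (le_max_left _ _).trans hJ
  have hJ2 : (J₂ : ℝ) ≤ J := by exact_mod_cast (le_max_left _ _).trans ((le_max_right _ _).trans hJ)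
  have hJ3 : 1 ≤ J := (le_max_right _ _).trans ((le_max_right _ _).trans hJ)
  have hJr : (0 : ℝ) < J := by exact_mod_cast hJ3
  have hA0 : 0 < Pe F.p A := lt_of_lt_of_le (Real.exp_pos _) hS.2
  have hl : IsLaw (Pool.Agent.H49.Ent.cond F.p A True) := isLaw_cond F.isLaw hA0
  have h2 := h1 J hJ1 F A hS q hq
  have h3 : CH (Pool.Agent.H49.Ent.cond F.p A True) (F.D q) (fun ω => (F.X J ω, F.W ω)) ≤ cc m := by
    refine ball_ent hl (v := v) fun ω hω j => ?_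
    have hωA := ((cond_pos_iff F.isLaw.nonneg A True ω).1 hω).2
    have hA' : A ω := by simpa using hωA
    exact hv ω hA' j
  have h4 : a * CH (Pool.Agent.H49.Ent.cond F.p A True) (F.D q) (fun ω => (F.X J ω, F.W ω)) ≤
      a * cc m := mul_le_mul_of_nonneg_left h3 ha0.le
  have h5 : 2 * (a * cc m) / (R * x) < J := hJ₂.trans_le hJ2
  have hRx : 0 < R * x := by positivity
  rw [div_lt_iff₀ hRx] at h5
  have h6 : R * (x * J) ≤ R * q := mul_le_mul_of_nonneg_left hxq hR.le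
  nlinarith

/-- Large events in families of the class of labels. -/
theorem st_mxl {b a R τ c : ℝ} {F : Fam m J} (hτ : 0 ≤ τ) (hc : 0 ≤ c)
    (hS : (Fcl m b a R).T τ J F) (A : F.Ω → Prop) (hA : Real.exp (-(c * J)) ≤ Pe F.p A) :
    ∃ h : IsLaw (Pool.Agent.H49.Ent.cond F.p A True), Mxl (F.res A True h) b a R (5 * τ + c) := by
  have hA0 : 0 < Pe F.p A := lt_of_lt_of_le (Real.exp_pos _) hA
  have hJ : (0 : ℝ) ≤ J := Nat.cast_nonneg J
  obtain ⟨hTr, hTm, hU, hRb⟩ := hS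
  refine ⟨isLaw_cond F.isLaw hA0, Pool.S6K.Wfe.res_Tm hτ hc hTr hTm hRb hA _, ?_⟩
  refine (hU A (isLaw_cond F.isLaw hA0)).mono ?_
  have h1 : -(c * J) ≤ Real.log (Pe F.p A) := by
    rw [← Real.log_exp (-(c * J))]
    exact Real.log_le_log (Real.exp_pos _) hA
  have h2 : 0 ≤ τ * J := by positivity
  nlinarith

open Npc in
/-- **(NPC)** for labels. -/
theorem npc_thm {b a₀ R₀ : ℝ} (hb : 8 ≤ b) (ha₀ : 1 ≤ a₀) (hR₀ : 0 < R₀) :
    Pool.K2S.G.NPCStmt (Fcl 2 b a₀ R₀) := by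
  classical
  intro a R ha hR hG
  obtain ⟨x, hx, τ₀, hτ₀, J₁, hnpl⟩ := npll_of wcl_thm endl_thm 1 1 1 4 le_rfl (by norm_num)
    lk1_thm lk1_thm b (by norm_num; exact hb) (by linarith) a₀ R₀ ha₀ hR₀
  obtain ⟨x', hx'⟩ : ∃ x', x' = min (x / 2) (1 / 2) := ⟨_, rfl⟩
  have hx'0 : 0 < x' := by rw [hx']; exact lt_min (by linarith) (by norm_num)
  have hx'1 : x' ≤ 1 / 2 := by rw [hx']; exact min_le_right _ _
  have hx'x : x' ≤ x / 2 := by rw [hx']; exact min_le_left _ _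
  refine ⟨x', hx'0, by linarith, fun h₁ hh₁ => ⟨1, fun N hN i₀ j v hj hj2 hv => ?_⟩⟩
  have hNpos : (0 : ℝ) < N := by exact_mod_cast hN
  have hN0 : 0 < N := hN
  obtain ⟨xb, hxb⟩ : ∃ xb, xb = min h₁ (1 / 4) / 4 := ⟨_, rfl⟩
  have hxb0 : 0 < xb := by rw [hxb]; have := lt_min hh₁ (show (0 : ℝ) < 1 / 4 by norm_num); linarith
  have hxb1 : 4 * xb ≤ h₁ := by rw [hxb]; have := min_le_left h₁ (1 / 4); linarith
  have hxb2 : 16 * xb ≤ 1 := by rw [hxb]; have := min_le_right h₁ (1 / 4); linarith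
  obtain ⟨τb, hτb, Jb, hball⟩ := not_ballG ha.le hR hG hxb0
  refine Pool.K2S.G.Claim.one ⟨1, fun J F _ => Ball (1 / 2 ^ (⌊xb * J⌋₊ + 1)) (Fam.pt F) F.d,
    fun _ _ _ => Ball.hered _ _ _⟩ fun κ hκ => ?_
  obtain ⟨τ, hτ⟩ : ∃ τ, τ = min τ₀ τb / 14 := ⟨_, rfl⟩
  have hτ0 : 0 < τ := by
    rw [hτ]
    have : 0 < min τ₀ τb := lt_min hτ₀ hτb
    positivity
  have hl2 : 0 < Real.log 2 := Real.log_pos (by norm_num)
  obtain ⟨J₂, hJ₂⟩ := exists_nat_gt (Real.log 2 / κ + Real.log 2 / τ + 8 / xb + 2 * N / x +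
    4 * N + 3 * cc 2 / τ₀ + cc 1 / τ₀ + 4)
  refine ⟨τ, hτ0, max J₂ (max J₁ Jb), fun J hJ F A hS hSb hLb hCn => ?_⟩
  have hJr : Real.log 2 / κ + Real.log 2 / τ + 8 / xb + 2 * N / x + 4 * N + 3 * cc 2 / τ₀ +
      cc 1 / τ₀ + 4 < J :=
    hJ₂.trans_le (by exact_mod_cast (le_max_left _ _).trans hJ)
  have hcc : ∀ m : ℕ, 0 ≤ cc m := fun m => by
    unfold cc
    exact mul_nonneg (by positivity) (Real.log_nonneg (by norm_num))
  have q1 : 0 < Real.log 2 / κ := by positivity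
  have q2 : 0 < Real.log 2 / τ := by positivity
  have q3 : 0 < 8 / xb := by positivity
  have q4 : 0 < 2 * N / x := by positivity
  have q5 : 0 ≤ 3 * cc 2 / τ₀ := div_nonneg (mul_nonneg (by norm_num) (hcc 2)) hτ₀.le
  have q6 : 0 ≤ cc 1 / τ₀ := div_nonneg (hcc 1) hτ₀.le
  have hJ0 : (0 : ℝ) < J := by linarith
  have r1 : Real.log 2 ≤ κ * J := by
    have : Real.log 2 / κ < J := by linarith
    rw [div_lt_iff₀ hκ] at this
    linarith
  have r2 : Real.log 2 ≤ τ * J := by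
    have : Real.log 2 / τ < J := by linarith
    rw [div_lt_iff₀ hτ0] at this
    linarith
  have r3 : 8 ≤ xb * J := by
    have : 8 / xb < J := by linarith
    rw [div_lt_iff₀ hxb0] at this
    linarith
  have r4 : 2 * N ≤ x * J := by
    have : 2 * N / x < J := by linarith
    rw [div_lt_iff₀ hx] at this
    linarith
  have r5 : 3 * cc 2 ≤ τ₀ * J := by
    have : 3 * cc 2 / τ₀ < J := by linarith
    rw [div_lt_iff₀ hτ₀] at this
    linarith
  have r6 : cc 1 ≤ τ₀ * J := by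
    have : cc 1 / τ₀ < J := by linarith
    rw [div_lt_iff₀ hτ₀] at this
    linarith
  have r7 : 4 * (N : ℝ) ≤ J := by linarith
  have hp := F.isLaw
  have hA0 : 0 < Pe F.p A := lt_of_lt_of_le (Real.exp_pos _) hS.2
  -- scales
  obtain ⟨u, hu⟩ : ∃ u, u = J / N := ⟨_, rfl⟩
  have hu1 : (N : ℝ) * u ≤ J := by rw [hu]; exact_mod_cast Nat.mul_div_le J N
  have hu2 : (J : ℝ) < N * (u + 1) := by rw [hu]; exact_mod_cast Nat.lt_mul_div_succ J hN0
  have hu0 : (0 : ℝ) ≤ u := Nat.cast_nonneg u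
  rw [← hu] at hCn
  obtain ⟨l, hl⟩ : ∃ l, l = j * u := ⟨_, rfl⟩
  obtain ⟨w, hw⟩ : ∃ w, w = v * u := ⟨_, rfl⟩
  rw [← hl, ← hw] at hCn
  have hlr : (l : ℝ) = j * u := by rw [hl]; push_cast; ring
  have hwr : (w : ℝ) = v * u := by rw [hw]; push_cast; ring
  have hlJ : l ≤ J := by
    have : (l : ℝ) ≤ J := by
      rw [hlr]
      have : (j : ℝ) * u ≤ N * u := mul_le_mul_of_nonneg_right (by exact_mod_cast hj) hu0
      linarith
    exact_mod_cast this
  have hwx : (w : ℝ) ≤ x' * J := by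
    rw [hwr]
    calc (v : ℝ) * u ≤ x' * N * u := mul_le_mul_of_nonneg_right hv hu0
      _ = x' * (N * u) := by ring
      _ ≤ _ := mul_le_mul_of_nonneg_left hu1 hx'0.le
  have hwJ : w ≤ J := by
    have : (w : ℝ) ≤ J := by
      have : x' * J ≤ 1 / 2 * J := mul_le_mul_of_nonneg_right hx'1 hJ0.le
      linarith
    exact_mod_cast this
  have hl1 : (1 - x') * (J - N) ≤ l := by
    rw [hlr]
    have h1 : (1 - x') * N * u ≤ j * u := mul_le_mul_of_nonneg_right hj2 hu0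
    have h2 : (1 - x') * (J - N) ≤ (1 - x') * (N * u) :=
      mul_le_mul_of_nonneg_left (by linarith) (by linarith)
    linarith
  have hl2' : (J : ℝ) / 4 ≤ l := by
    have : (1 / 2 : ℝ) * (J - N) ≤ (1 - x') * (J - N) :=
      mul_le_mul_of_nonneg_right (by linarith) (by linarith)
    linarith
  have hl3 : (1 - x) * J ≤ l := by
    refine le_trans ?_ hl1
    have h1 : x' * J ≤ x / 2 * J := mul_le_mul_of_nonneg_right hx'x hJ0.le
    have h2 : 0 ≤ x' * N := by positivity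
    nlinarith
  obtain ⟨eb, nb, hb'⟩ := hLb
  obtain ⟨e, n, ζ, h1, h2⟩ := hCn
  have hinv : (1 : ℝ) / 2 ^ l ≤ 1 := by
    rw [div_le_one (by positivity)]
    exact one_le_pow₀ (by norm_num)
  -- the points with steep slopes
  obtain ⟨Bg, hBg⟩ : ∃ Bg : F.Ω → Prop, Bg = fun ω => A ω ∧ ∃ j, 3 < |ζ (slam F w ω) j| :=
    ⟨_, rfl⟩
  have hsteep := steep_ball (wn := slam F w) (ζ := ζ) hb' h1
    (fun ω hω k => (h2 ω hω k).trans hinv)
  rw [← hBg] at hsteep
  have hballB : Ball (1 / 2 ^ (⌊xb * J⌋₊ + 1)) (Fam.pt F) F.d Bg := by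
    have hq1 : (⌊xb * J⌋₊ : ℝ) ≤ xb * J := Nat.floor_le (by positivity)
    obtain ⟨vv, hvv⟩ := hsteep
    refine ⟨vv, fun ω hω k => (hvv ω hω k).trans (ball_arith ?_ ?_)⟩
    · have : ((⌊xb * J⌋₊ + 1 + 3 : ℕ) : ℝ) ≤ l := by
        push_cast
        have : 16 * (xb * J) ≤ J := by
          calc 16 * (xb * J) = 16 * xb * J := by ring
            _ ≤ 1 * J := mul_le_mul_of_nonneg_right hxb2 hJ0.le
            _ = J := one_mul _
        linarith
      exact_mod_cast this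
    · refine Nat.le_floor ?_
      push_cast
      have : 4 * (xb * J) ≤ h₁ * J := by
        calc 4 * (xb * J) = 4 * xb * J := by ring
          _ ≤ h₁ * J := mul_le_mul_of_nonneg_right hxb1 hJ0.le
      linarith
  -- the ball property fails on `A`
  have hmin : 0 < min τ₀ τb := lt_min hτ₀ hτb
  have hnb : ¬ Ball (1 / 2 ^ (⌊xb * J⌋₊ + 1)) (Fam.pt F) F.d A := by
    have hq1 : (⌊xb * J⌋₊ : ℝ) ≤ xb * J := Nat.floor_le (by positivity)
    have e1 : τ ≤ τb := by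
      rw [hτ]
      have := min_le_right τ₀ τb
      linarith
    refine hball J ((le_max_right _ _).trans ((le_max_right _ _).trans hJ)) F A (hS.mono e1)
      (⌊xb * J⌋₊ + 1) ?_ ?_
    · have : ((⌊xb * J⌋₊ + 1 : ℕ) : ℝ) ≤ J := by
        push_cast
        have : 16 * (xb * J) ≤ J := by
          calc 16 * (xb * J) = 16 * xb * J := by ring
            _ ≤ 1 * J := mul_le_mul_of_nonneg_right hxb2 hJ0.le
            _ = J := one_mul _
        linarith
      exact_mod_cast this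
    · push_cast
      exact (Nat.lt_floor_add_one _).le
  have hBgs : Pe F.p Bg < Real.exp (-(κ * J)) * Pe F.p A := by
    by_contra hcon
    push Not at hcon
    refine hnb ((hSb 0).of_sub (B := Bg) (fun ω hω => ?_) hcon hballB)
    rw [hBg] at hω
    exact hω.1
  obtain ⟨A', hA'⟩ : ∃ A' : F.Ω → Prop, A' = fun ω => A ω ∧ ¬ Bg ω := ⟨_, rfl⟩
  have hPA' : Real.exp (-((2 * τ) * J)) ≤ Pe F.p A' := by
    have hexp : Real.exp (-(κ * J)) ≤ 1 / 2 := by
      rw [show (1 / 2 : ℝ) = Real.exp (-Real.log 2) by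
        rw [Real.exp_neg, Real.exp_log (by norm_num)]; norm_num]
      exact Real.exp_le_exp.2 (by linarith)
    have d0 : Pe F.p (fun ω => A ω ∧ Bg ω) ≤ Pe F.p A / 2 := by
      have k1 : Pe F.p (fun ω => A ω ∧ Bg ω) ≤ Pe F.p Bg := Pe_mono hp fun ω hω => hω.2
      have k2 : Real.exp (-(κ * J)) * Pe F.p A ≤ 1 / 2 * Pe F.p A :=
        mul_le_mul_of_nonneg_right hexp hA0.le
      linarith
    have d1 := Pe_diff d0
    rw [hA']
    refine le_trans ?_ d1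
    have d2 : Real.exp (-(2 * τ * J)) ≤ Real.exp (-Real.log 2) * Real.exp (-(τ * J)) := by
      rw [← Real.exp_add]
      exact Real.exp_le_exp.2 (by linarith)
    exact d2.trans (mul_le_mul_of_nonneg_left hS.2 (Real.exp_pos _).le)
  obtain ⟨hlaw', hMx2⟩ := st_mxl hτ0.le (by linarith : (0 : ℝ) ≤ 2 * τ) hS.1 A' hPA'
  have hMx3 : Mxl (F.res A' True hlaw') b a₀ R₀ τ₀ := by
    have e1 : 5 * τ + 2 * τ ≤ τ₀ := by
      rw [hτ]
      have := min_le_left τ₀ τb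
      linarith
    have h3 : (5 * τ + 2 * τ) * J ≤ τ₀ * J := mul_le_mul_of_nonneg_right e1 hJ0.le
    refine ⟨?_, hMx2.2.mono (by nlinarith)⟩
    have := hMx2.1
    unfold Fam.Tm at this ⊢
    linarith
  -- the support
  have hsup : ∀ ω, 0 < (F.res A' True hlaw').p ω → A ω ∧ ∀ k, |ζ (slam F w ω) k| ≤ 3 := by
    intro ω hω
    have hω' : 0 < Pool.Agent.H49.Ent.cond F.p A' True ω := hω
    have hωA := ((cond_pos_iff hp.nonneg A' True ω).1 hω').2
    have hA2 : A' ω := by simpa using hωA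
    rw [hA'] at hA2
    refine ⟨hA2.1, fun k => ?_⟩
    by_contra hk
    push Not at hk
    refine hA2.2 ?_
    rw [hBg]
    exact ⟨hA2.1, k, hk⟩
  obtain ⟨j₁, hj₁⟩ := ex_idx i₀
  have hdet : Det (F.res A' True hlaw').p (fun ω => ((F.res A' True hlaw').l ω,
      (F.res A' True hlaw').T1 w ω, (F.res A' True hlaw').Z ω))
      (lab (F.res A' True hlaw') i₀ l w ζ) := by
    intro ω ω' _ _ hh
    have b1 := Prod.ext_iff.mp hh
    have b2 : F.l ω = F.l ω' := b1.1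
    have b3 := Prod.ext_iff.mp b1.2
    have b4 : F.T1 w ω = F.T1 w ω' := b3.1
    have b5 : F.Z ω = F.Z ω' := b3.2
    have b6 : slam F w ω = slam F w ω' := by
      unfold slam
      rw [b2, b4, b5]
    have b7 : F.u ω = F.u ω' ∧ F.d ω = F.d ω' := Prod.ext_iff.mp b2
    have b8 : F.x1 w ω = F.x1 w ω' := by
      funext i
      unfold Fam.x1
      rw [b7.1, b7.2, b4]
    have c1 : z1 l (slam F w) ζ ω = z1 l (slam F w) ζ ω' := by
      unfold z1
      rw [b6]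
    change (z1 l (slam F w) ζ ω, fl l (nf i₀ (zs l (z1 l (slam F w) ζ ω)) (F.x1 w ω)),
      fl l (nf i₀ (zs l (z1 l (slam F w) ζ ω)) (F.d ω))) = (z1 l (slam F w) ζ ω',
      fl l (nf i₀ (zs l (z1 l (slam F w) ζ ω')) (F.x1 w ω')),
      fl l (nf i₀ (zs l (z1 l (slam F w) ζ ω')) (F.d ω')))
    rw [c1, b8, b7.2]
  have hvis := lab_vis (F := F.res A' True hlaw') (i₀ := i₀) (l := l) (w := w) (ζ := ζ)
    (e := e) (n := n) hlJ hwJ (fun ω hω => (hsup ω hω).2)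
    (fun ω hω => h1 ω (hsup ω hω).1) (fun ω hω => h2 ω (hsup ω hω).1)
  have hcon := lab_con (F := F.res A' True hlaw') (i₀ := i₀) (l := l) (w := w) (ζ := ζ)
    hwJ hj₁ (fun ω hω => (hsup ω hω).2)
  have hfin := hnpl J ((le_max_left _ _).trans ((le_max_right _ _).trans hJ))
    (F.res A' True hlaw') hMx3 w (hwx.trans (mul_le_mul_of_nonneg_right (by linarith) hJ0.le))
    _ (lab (F.res A' True hlaw') i₀ l w ζ) (MA l i₀ j₁) (MB l i₀ j₁) (MA_le l i₀ j₁)
    (MB_le l i₀ j₁) (MB_MA l i₀ j₁) hdet (hvis.trans r5) l hlJ hl3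
  have := hfin.trans_le hcon
  linarith

end Pool.LK
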