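import Pool.Agent.H34.LK.WCL
import Pool.Agent.H13.K2S.NoPlank

/-!
# Labels: no visible planks of macroscopic size
-/

set_option autoImplicit false

namespace Pool.LK

open Finset Real
open Pool.Agent.H49.Ent Pool.Agent.H32.Dense Pool.STK Pool.KA Pool.KSAT Pool.K2S

variable {m J : ℕ}

/-- A label with a larger frame bound. -/
def Lbl.upb {F : Fam m J} {b b' : ℝ} (hb : b ≤ b') (B : Lbl F b) : Lbl F b' where
  k := B.k
  M := B.M
  le := B.le
  bd := fun ω i j => (B.bd ω i j).trans hb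
  inv := fun ω => by
    obtain ⟨D, h1, h2⟩ := B.inv ω
    exact ⟨D, fun i j => (h1 i j).trans hb, h2⟩

theorem Lbl.upb_cost {F : Fam m J} {b b' : ℝ} (hb : b ≤ b') (B : Lbl F b) :
    (B.upb hb).cost = B.cost := rfl

/-- **No planks**, for labels. -/
def NPLLStmt : Prop :=
  ∀ (c k : ℕ) (b₁ b : ℝ), 1 ≤ b₁ → 1 ≤ b → LKS c b₁ → LKS k b₁ →
    ∀ b' : ℝ, ((c + k : ℕ) : ℝ) * b₁ * b ≤ b' → 1 ≤ b' → ∀ a R : ℝ, 1 ≤ a → 0 < R →
    ∃ x > 0, ∃ τ > 0, ∃ J₁ : ℕ, ∀ J ≥ J₁, ∀ F : Fam (c + k) J, Mxl F b' a R τ →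
    ∀ g : ℕ, (g : ℝ) ≤ x * J → ∀ (κ : Type) (z : F.Ω → κ)
      (A B : κ → Fin (c + k) → Fin (c + k) → ℝ),
    (∀ y i j, |A y i j| ≤ 1) → (∀ y i j, |B y i j| ≤ b) →
    (∀ y i l, ∑ j, B y i j * A y j l = if i = l then 1 else 0) →
    Det F.p (fun ω => (F.l ω, (F.T1 g ω, F.Z ω))) z →
    CH F.p z (fun ω => (F.X J ω, F.W ω)) ≤ τ * J →
    ∀ P : ℕ, P ≤ J → (1 - x) * J ≤ P →
    τ * J < CH F.p (fun ω => fl P (prj (A (z ω)) (Fin.castAdd k) (F.x ω)))
      (fun ω => (z ω, F.W ω))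

open NPL ENP

theorem npll_of (hM : WCLStmt) (hE : ENDLStmt) : NPLLStmt := by
  intro c k b₁ b hb₁ hb hc hk b' hb' hb'1 a R ha hR
  obtain ⟨C, hC0, hC⟩ := hM (c + k) b' a R hb'1 ha hR
  set ε : ℝ := R / 8 with hε
  have hε0 : 0 < ε := by positivity
  obtain ⟨θ, hθ, J₀, hJ₀⟩ := hE c k b₁ b hb₁ hb hc hk ε hε0
  have hl2 : 0 < Real.log 2 := Real.log_pos (by norm_num)
  have hl2' : Real.log 2 ≤ 1 := by
    have := Real.log_le_sub_one_of_pos (x := 2) (by norm_num)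
    linarith
  -- the parameters
  set x : ℝ := min (1 / 4) (min (θ / (4 * (C + 1))) (R / (16 * (C + c + 1)))) with hx
  have hx0 : 0 < x := lt_min (by norm_num) (lt_min (by positivity) (by positivity))
  have hx1 : x ≤ 1 / 4 := min_le_left _ _
  have hx2 : x ≤ θ / (4 * (C + 1)) := (min_le_right _ _).trans (min_le_left _ _)
  have hx3 : x ≤ R / (16 * (C + c + 1)) := (min_le_right _ _).trans (min_le_right _ _)
  set Cr : ℝ := c * Real.log 5 with hCr
  have hCr0 : 0 ≤ Cr := mul_nonneg (Nat.cast_nonneg _) (Real.log_nonneg (by norm_num))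
  set τ : ℝ := min x (min (θ / 4) (R / 64)) with hτ
  have hτ0 : 0 < τ := lt_min hx0 (lt_min (by positivity) (by positivity))
  have hτ1 : τ ≤ x := min_le_left _ _
  have hτ3 : τ ≤ R / 64 := (min_le_right _ _).trans (min_le_right _ _)
  obtain ⟨J₁, hJ₁⟩ := exists_nat_gt (max (1 / τ) (64 * Cr / R))
  refine ⟨x, hx0, τ, hτ0, max (2 * J₀) (max J₁ 1), fun J hJ F hF g hg κ z A B hA hB hBA hz hvis P hPJ
    hP => ?_⟩
  have hJa : 2 * J₀ ≤ J := (le_max_left _ _).trans hJ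
  have hJb : J₁ ≤ J := (le_max_left _ _).trans ((le_max_right _ _).trans hJ)
  have hJc : 1 ≤ J := (le_max_right _ _).trans ((le_max_right _ _).trans hJ)
  have hJpos : (0 : ℝ) < J := by exact_mod_cast hJc
  have hJbr : (J₁ : ℝ) ≤ J := by exact_mod_cast hJb
  have hJτ : 1 ≤ τ * J := by
    have h1 : 1 / τ < J := lt_of_le_of_lt (le_max_left _ _) (lt_of_lt_of_le hJ₁ hJbr)
    rw [div_lt_iff₀ hτ0] at h1
    linarith
  have hJC : 64 * Cr ≤ R * J := by
    have h1 : 64 * Cr / R < J := lt_of_le_of_lt (le_max_right _ _) (lt_of_lt_of_le hJ₁ hJbr)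
    rw [div_lt_iff₀ hR] at h1
    linarith
  have hgJr : (g : ℝ) ≤ J / 4 := hg.trans (by nlinarith)
  have hgJ : g ≤ J := by
    have : (g : ℝ) ≤ J := by linarith
    exact_mod_cast this
  by_contra hcon
  push Not at hcon
  -- the window family
  set F' := F.win g with hF'
  have hp := F.isLaw
  have hp0 := hp.nonneg
  have hMx : Mxl F' b' a R (C * (τ + x)) :=
    hC J F τ x hJc hτ0.le hx0.le hx1 hJτ hF g hgJ hg
  have hJ' : ((J - g : ℕ) : ℝ) = (J : ℝ) - g := by rw [Nat.cast_sub hgJ]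
  have hJ'1 : (3 / 4 : ℝ) * J ≤ ((J - g : ℕ) : ℝ) := by rw [hJ']; linarith
  have hJ'2 : ((J - g : ℕ) : ℝ) ≤ J := by
    rw [hJ']
    have : (0 : ℝ) ≤ g := Nat.cast_nonneg _
    linarith
  have hJ'3 : J₀ ≤ J - g := by
    have h1 : (2 * J₀ : ℝ) ≤ J := by exact_mod_cast hJa
    have h2 : (J₀ : ℝ) ≤ ((J - g : ℕ) : ℝ) := by linarith
    exact_mod_cast h2
  have hgP : g ≤ P := by
    have h1 : (g : ℝ) ≤ P := by
      have : (1 - x) * J ≥ 3 / 4 * J := by nlinarith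
      linarith
    exact_mod_cast h1
  have hPr : ((P - g : ℕ) : ℝ) = (P : ℝ) - g := by rw [Nat.cast_sub hgP]
  have hdetz : Det F'.p (fun ω => (F'.l ω, F'.Z ω)) z := by
    intro ω ω' h1 h2 h
    obtain ⟨e1, e2⟩ := Prod.ext_iff.mp h
    obtain ⟨k1, k2, k3⟩ := win_det F g e1 e2
    exact hz ω ω' h1 h2 (Prod.ext k1 (Prod.ext k2 k3))
  -- time deficit
  have hTm : F'.Tm (θ * ((J - g : ℕ) : ℝ)) := by
    have h2 := hMx.1
    unfold Fam.Tm at h2 ⊢
    have h3 : C * (τ + x) ≤ θ := by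
      have k1 : C * (τ + x) ≤ (C + 1) * (2 * x) := by nlinarith
      have k2 : (C + 1) * (2 * x) ≤ (C + 1) * (2 * (θ / (4 * (C + 1)))) :=
        mul_le_mul_of_nonneg_left (by linarith) (by linarith)
      have k3 : (C + 1) * (2 * (θ / (4 * (C + 1)))) = θ / 2 := by
        field_simp
        ring
      linarith
    have h4 : C * (τ + x) * ((J - g : ℕ) : ℝ) ≤ θ * ((J - g : ℕ) : ℝ) :=
      mul_le_mul_of_nonneg_right h3 (Nat.cast_nonneg _)
    linarith
  obtain ⟨B', hB'⟩ := hJ₀ (J - g) hJ'3 F' κ z A B hA hB hBA hdetz hTm (P - g)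
    (Nat.sub_le_sub_right hPJ g)
  -- visibility
  have hv : CH F'.p z (fun ω => (F'.X (J - g) ω, F'.W ω)) ≤ τ * J := by
    refine le_trans (CH_mono_cond hp0 ?_) hvis
    intro ω ω' _ _ h
    have e1 : F'.X (J - g) ω = F'.X (J - g) ω' := (Prod.ext_iff.mp h).1
    have e2 : F.T ω % 2 ^ (J - g) = F.T ω' % 2 ^ (J - g) :=
      (Prod.ext_iff.mp (Prod.ext_iff.mp h).2).1
    have e3 : F.c g ω = F.c g ω' := (Prod.ext_iff.mp (Prod.ext_iff.mp h).2).2
    have e4 : F.T1 g ω = F.T1 g ω' := (Prod.ext_iff.mp (Prod.ext_iff.mp e3).1).1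
    have e5 : fl g (F.x1 g ω) = fl g (F.x1 g ω') := (Prod.ext_iff.mp (Prod.ext_iff.mp e3).1).2
    have e6 : F.Z ω = F.Z ω' := (Prod.ext_iff.mp e3).2
    refine Prod.ext ?_ (Prod.ext (Pool.KA.Win.T_det F g e4 e2) e6)
    funext i
    have k1 := congrFun e1 i
    rw [Pool.KA.Win.win_X F g hgJ, Pool.KA.Win.win_X F g hgJ, congrFun e5 i,
      Nat.sub_add_cancel hgJ] at k1
    change F.X J ω i = F.X J ω' i
    linarith
  -- the transversal position
  have hN : CH F'.p (fun ω => fl (P - g) (prj (A (z ω)) (Fin.castAdd k) (F'.x ω)))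
      (fun ω => (z ω, F'.W ω)) ≤ τ * J + Cr := by
    have h1 := CH_le_add hp0 (fun ω => fl (P - g) (prj (A (z ω)) (Fin.castAdd k) (F'.x ω)))
      (fun ω => fl P (prj (A (z ω)) (Fin.castAdd k) (F.x ω))) (fun ω => (z ω, F'.W ω))
    have h2 : CH F.p (fun ω => fl P (prj (A (z ω)) (Fin.castAdd k) (F.x ω)))
        (fun ω => (z ω, F'.W ω)) ≤ τ * J := by
      refine le_trans (CH_mono_cond hp0 ?_) hcon
      intro ω ω' _ _ h
      have e0 : z ω = z ω' := (Prod.ext_iff.mp h).1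
      have e2 : F.T ω % 2 ^ (J - g) = F.T ω' % 2 ^ (J - g) :=
        (Prod.ext_iff.mp (Prod.ext_iff.mp h).2).1
      have e3 : F.c g ω = F.c g ω' := (Prod.ext_iff.mp (Prod.ext_iff.mp h).2).2
      have e4 : F.T1 g ω = F.T1 g ω' := (Prod.ext_iff.mp (Prod.ext_iff.mp e3).1).1
      have e6 : F.Z ω = F.Z ω' := (Prod.ext_iff.mp e3).2
      exact Prod.ext e0 (Prod.ext (Pool.KA.Win.T_det F g e4 e2) e6)
    have h3 := CH_le_vec hp0 hp.sum_one
      (fun ω => fl (P - g) (prj (A (z ω)) (Fin.castAdd k) (F'.x ω)))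
      (fun ω => (fl P (prj (A (z ω)) (Fin.castAdd k) (F.x ω)), (z ω, F'.W ω))) (fun _ => 2)
      (by
        intro ω ω' _ _ h i
        have e1 : fl P (prj (A (z ω)) (Fin.castAdd k) (F.x ω)) =
          fl P (prj (A (z ω')) (Fin.castAdd k) (F.x ω')) := (Prod.ext_iff.mp h).1
        have e0 : z ω = z ω' := (Prod.ext_iff.mp (Prod.ext_iff.mp h).2).1
        have e3 : F.c g ω = F.c g ω' :=
          (Prod.ext_iff.mp (Prod.ext_iff.mp (Prod.ext_iff.mp h).2).2).2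
        have e5 : fl g (F.x1 g ω) = fl g (F.x1 g ω') :=
          (Prod.ext_iff.mp (Prod.ext_iff.mp e3).1).2
        have k1 := of_fl_eq e1 i
        have k2 : |2 ^ (P - g) * prj (A (z ω)) (Fin.castAdd k) (F'.x ω) i -
            2 ^ (P - g) * prj (A (z ω')) (Fin.castAdd k) (F'.x ω') i| ≤ 1 := by
          rw [win_prj F hgJ, win_prj F hgJ, e5, e0]
          have k3 : (2 : ℝ) ^ (P - g) * (2 ^ g * prj (A (z ω')) (Fin.castAdd k) (F.x ω) i -
              ∑ j, A (z ω') (Fin.castAdd k i) j * (fl g (F.x1 g ω') j : ℝ)) -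
              2 ^ (P - g) * (2 ^ g * prj (A (z ω')) (Fin.castAdd k) (F.x ω') i -
              ∑ j, A (z ω') (Fin.castAdd k i) j * (fl g (F.x1 g ω') j : ℝ)) =
              2 ^ P * (prj (A (z ω')) (Fin.castAdd k) (F.x ω) i -
                prj (A (z ω')) (Fin.castAdd k) (F.x ω') i) := by
            have k4 : (2 : ℝ) ^ P = 2 ^ (P - g) * 2 ^ g := by
              rw [← pow_add, Nat.sub_add_cancel hgP]
            rw [k4]
            ring
          rw [k3, abs_mul, abs_of_pos (by positivity : (0 : ℝ) < 2 ^ P)]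
          rw [e0] at k1
          rw [le_div_iff₀ (by positivity)] at k1
          linarith
        have k5 := floor_dist k2
        have k6 : |((⌊2 ^ (P - g) * prj (A (z ω)) (Fin.castAdd k) (F'.x ω) i⌋ -
            ⌊2 ^ (P - g) * prj (A (z ω')) (Fin.castAdd k) (F'.x ω') i⌋ : ℤ) : ℝ)| ≤ 2 := by
          linarith
        exact k6)
    rw [Ex_const hp.sum_one] at h3
    have h4 : (c : ℝ) * Real.log (2 * 2 + 1) = Cr := by
      rw [hCr]
      norm_num
    rw [h4] at h3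
    have h5 : CH F'.p (fun ω => fl (P - g) (prj (A (z ω)) (Fin.castAdd k) (F'.x ω)))
        (fun ω => (z ω, F'.W ω)) = CH F.p
          (fun ω => fl (P - g) (prj (A (z ω)) (Fin.castAdd k) (F'.x ω)))
          (fun ω => (z ω, F'.W ω)) := rfl
    rw [h5]
    linarith
  -- the functional
  have hG := hMx.2 (B'.upb hb')
  rw [Lbl.upb_cost] at hG
  have hX0 : 0 ≤ CH F'.p (F'.X (J - g)) F'.W := CH_nonneg F'.isLaw.nonneg _ _
  have hV : (R - C * (τ + x)) * ((J - g : ℕ) : ℝ) ≤ B'.cost - CH F'.p (F'.X (J - g)) F'.W := by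
    refine hG.trans ?_
    nlinarith
  have hmain : B'.cost - CH F'.p (F'.X (J - g)) F'.W ≤ ε * ((J - g : ℕ) : ℝ) +
      CH F'.p z (fun ω => (F'.X (J - g) ω, F'.W ω)) +
      CH F'.p (fun ω => fl (P - g) (prj (A (z ω)) (Fin.castAdd k) (F'.x ω)))
        (fun ω => (z ω, F'.W ω)) +
      c * ((((J - g : ℕ) : ℝ) - ((P - g : ℕ) : ℝ)) * Real.log 2) := by
    linarith
  have hJP : (((J - g : ℕ) : ℝ) - ((P - g : ℕ) : ℝ)) ≤ x * J := by
    rw [hJ', hPr]
    linarith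
  -- conclusion
  exact arith (C := C) (c := c) hC0 (Nat.cast_nonneg c) hR hx0.le hτ1 hx3 hτ3 hJpos hl2.le
    hl2' hJ'1 hJ'2 hJP hJC hV hmain hv hN hε

end Pool.LK
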